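import Pool.Agent.VFS.St

/-!
# VFS: the `F_σ` condition gives the closure condition
-/

set_option autoImplicit false

namespace VFS

open Set Pool.Agent.Helper5.DU Pool.Agent.Helper6.Str Pool.Agent.Helper79.VC

private lemma BAI_cyl {U : Set (ℕ → ℕ)} (hU : IsOpen U) {f : ℕ → ℕ} (hf : f ∈ U) :
    ∃ l : ℕ, ∀ f' : ℕ → ℕ, (∀ j < l, f' j = f j) → f' ∈ U := by
  obtain ⟨I, u, hu, hs⟩ := isOpen_pi_iff.mp hU f hf
  refine ⟨I.sup id + 1, fun f' h => hs ?_⟩
  intro a ha
  have h1 : a < I.sup id + 1 := Nat.lt_succ_of_le (Finset.le_sup (f := id) ha)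
  rw [h a h1]
  exact (hu a ha).2

theorem thm_BAI (hFUS : St_FUS) : St_BAI := by
  intro L _ K g S hInv hFs
  obtain ⟨C, hC, hp, hK⟩ := hFs
  have claim : ∃ (i k : ℕ) (s : Fin k → ℕ), Function.Injective s ∧
      ∀ f ∈ InjC S g, rs f k = s → f ∈ C i := by
    by_contra hcon
    push Not at hcon
    obtain ⟨G, hG, -, hGD⟩ := hFUS
      (fun i l => {t : Fin l → ℕ | ∀ f : ℕ → ℕ, rs f l = t → f ∉ C i}) (by
        intro i k s hs
        obtain ⟨f, hf, hfs, hfC⟩ := hcon i k s hs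
        obtain ⟨l0, hl0⟩ := BAI_cyl (hC i).isOpen_compl hfC
        refine ⟨max k l0, rs f (max k l0), ?_, ⟨le_max_left _ _, ?_⟩, ?_⟩
        · intro a b hab
          exact Fin.ext (hf.1 hab)
        · intro j
          rw [← hfs]
          rfl
        · intro f' hf' hC'
          refine hl0 f' ?_ hC'
          intro j hj
          exact congrFun hf' ⟨j, lt_of_lt_of_le hj (le_max_right _ _)⟩)
      0 Fin.elim0 (fun a => a.elim0)
    obtain ⟨i, hi⟩ := hp G hG
    obtain ⟨l, hl⟩ := hGD i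
    exact hl G rfl hi
  obtain ⟨i, k, s, hs, hsC⟩ := claim
  refine ⟨range s, finite_range s, ?_⟩
  intro f hf hsf S' hS'
  have h1 : ∀ j, ∃ a, f a = s j := fun j => hsf ⟨j, rfl⟩
  choose a ha using h1
  have hainj : Function.Injective a := by
    intro j j' h
    apply hs
    rw [← ha j, ← ha j', h]
  obtain ⟨π, hπ, hπa, -⟩ := hFUS (fun _ _ => univ)
    (fun _ k s hs => ⟨k, s, hs, ⟨le_rfl, fun _ => rfl⟩, mem_univ _⟩) k a hainj
  have hrange : range (f ∘ π) = range f := hπ.2.range_comp f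
  have hfπ : f ∘ π ∈ InjC S g := by
    refine ⟨hf.1.comp hπ.1, ?_⟩
    rw [hrange]
    exact hf.2
  have h2 : rs (f ∘ π) k = s := by
    funext j
    have h3 : π j = a j := congrFun hπa j
    change f (π j) = s j
    rw [h3, ha]
  have h4 : f ∘ π ∈ C i := hsC _ hfπ h2
  have h5 : pl S (f ∘ π) ∈ K := hK i _ h4 hfπ (pl S (f ∘ π)) fun n R v => Iff.rfl
  refine hInv (pl S (f ∘ π)) S' ?_ h5
  rw [nonempty_equiv_iff]
  refine ⟨Equiv.ofBijective π hπ, ?_⟩
  intro n R v
  exact (hS' n R fun i => π (v i)).symm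

end VFS
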