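import Pool.Agent.VFS.St

/-!
# VFS: Borel sets have codes
-/

set_option autoImplicit false

namespace VFS

open Set Pool.Agent.Helper5.DU Pool.Agent.Helper6.Str Pool.Agent.Helper79.VC

theorem thm_BCD : St_BCD := by
  intro L K hK
  refine MeasurableSpace.generateFrom_induction _
    (fun K _ => ∃ b : Bc L, ∀ S, S ∈ K ↔ Ev b S) ?_ ?_ ?_ ?_ K hK
  · rintro t ⟨n, R, a, rfl⟩ _
    exact ⟨.atm R a, fun S => Iff.rfl⟩
  · exact ⟨.fls, fun S => Iff.rfl⟩
  · rintro t _ ⟨b, hb⟩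
    exact ⟨.neg b, fun S => not_congr (hb S)⟩
  · intro s _ h
    choose b hb using h
    refine ⟨.neg (.conj fun i => .neg (b i)), fun S => ?_⟩
    show S ∈ ⋃ i, s i ↔ ¬ ∀ i, ¬ Ev (b i) S
    rw [mem_iUnion, not_forall]
    exact exists_congr fun i => (hb i S).trans not_not.symm

end VFS
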