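import Pool.Agent.VFS.St

/-!
# VFS [DFN]: forcing is definable
-/

set_option autoImplicit false
set_option linter.unusedVariables false

namespace VFS

open Set Pool.Agent.Helper5.DU Pool.Agent.Helper6.Str Pool.Agent.Helper79.VC

variable {L : FirstOrder.Language.{0, 0}}

/-- definable properties of tuples -/
def DFN_Df (L : FirstOrder.Language.{0, 0}) (k : ℕ)
    (P : ∀ (M : Type) (_ : L.Structure M), (Fin k → M) → Prop) : Prop :=
  ∃ φ : FmI L k, ∀ (M : Type) (S : L.Structure M) (s : Fin k → M), Sat S φ s ↔ P M S s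

theorem DFN_congr {k : ℕ} {P Q : ∀ (M : Type) (_ : L.Structure M), (Fin k → M) → Prop}
    (hP : DFN_Df L k P) (h : ∀ M S s, P M S s ↔ Q M S s) : DFN_Df L k Q := by
  obtain ⟨φ, hφ⟩ := hP
  exact ⟨φ, fun M S s => (hφ M S s).trans (h M S s)⟩

theorem DFN_not {k : ℕ} {P : ∀ (M : Type) (_ : L.Structure M), (Fin k → M) → Prop}
    (hP : DFN_Df L k P) : DFN_Df L k fun M S s => ¬ P M S s := by
  obtain ⟨φ, hφ⟩ := hP
  exact ⟨.neg φ, fun M S s => not_congr (hφ M S s)⟩

theorem DFN_all {k : ℕ} {P : ℕ → ∀ (M : Type) (_ : L.Structure M), (Fin k → M) → Prop}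
    (hP : ∀ m, DFN_Df L k (P m)) : DFN_Df L k fun M S s => ∀ m, P m M S s := by
  choose φ hφ using hP
  exact ⟨.conj φ, fun M S s => forall_congr' fun m => hφ m M S s⟩

theorem DFN_ex {k : ℕ} {P : ∀ (M : Type) (_ : L.Structure M), (Fin (k + 1) → M) → Prop}
    (hP : DFN_Df L (k + 1) P) :
    DFN_Df L k fun M S s => ∃ x, P M S (Fin.snoc (α := fun _ => M) s x) := by
  obtain ⟨φ, hφ⟩ := hP
  exact ⟨.ex φ, fun M S s => exists_congr fun x => hφ M S _⟩

theorem DFN_true (k : ℕ) : DFN_Df L k fun _ _ _ => True :=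
  ⟨.neg (.ex (.neg (.eq (Fin.last k) (Fin.last k)))), fun M S s => by
    refine iff_true_intro ?_
    rintro ⟨x, hx⟩
    exact hx rfl⟩

theorem DFN_const (k : ℕ) (p : Prop) : DFN_Df L k fun _ _ _ => p := by
  by_cases hp : p
  · exact DFN_congr (DFN_true k) fun _ _ _ => (iff_true_intro hp).symm
  · exact DFN_congr (DFN_not (DFN_true k)) fun _ _ _ =>
      ⟨fun h => absurd trivial h, fun h => absurd h hp⟩

theorem DFN_and {k : ℕ} {P Q : ∀ (M : Type) (_ : L.Structure M), (Fin k → M) → Prop}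
    (hP : DFN_Df L k P) (hQ : DFN_Df L k Q) : DFN_Df L k fun M S s => P M S s ∧ Q M S s := by
  have h : ∀ m : ℕ, DFN_Df L k (fun M S s => (m = 0 → P M S s) ∧ (m ≠ 0 → Q M S s)) := by
    intro m
    by_cases hm : m = 0
    · exact DFN_congr hP fun M S s => ⟨fun h => ⟨fun _ => h, fun h' => absurd hm h'⟩,
        fun h => h.1 hm⟩
    · exact DFN_congr hQ fun M S s => ⟨fun h => ⟨fun h' => absurd h' hm, fun _ => h⟩,
        fun h => h.2 hm⟩
  exact DFN_congr (DFN_all h) fun M S s => ⟨fun h => ⟨(h 0).1 rfl, (h 1).2 one_ne_zero⟩,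
    fun h m => ⟨fun _ => h.1, fun _ => h.2⟩⟩

theorem DFN_imp {k : ℕ} {P Q : ∀ (M : Type) (_ : L.Structure M), (Fin k → M) → Prop}
    (hP : DFN_Df L k P) (hQ : DFN_Df L k Q) : DFN_Df L k fun M S s => (P M S s → Q M S s) :=
  DFN_congr (DFN_not (DFN_and hP (DFN_not hQ))) fun M S s =>
    ⟨fun h h1 => by_contra fun h2 => h ⟨h1, h2⟩, fun h h1 => h1.2 (h h1.1)⟩

theorem DFN_alli {k : ℕ} {ι : Type} [Countable ι]
    {P : ι → ∀ (M : Type) (_ : L.Structure M), (Fin k → M) → Prop}
    (hP : ∀ i, DFN_Df L k (P i)) : DFN_Df L k fun M S s => ∀ i, P i M S s := by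
  rcases isEmpty_or_nonempty ι with h | h
  · exact DFN_congr (DFN_true k) fun M S s => ⟨fun _ i => (h.false i).elim, fun _ => trivial⟩
  · obtain ⟨f, hf⟩ := exists_surjective_nat ι
    exact DFN_congr (DFN_all fun m => hP (f m)) fun M S s =>
      (hf.forall (p := fun i => P i M S s)).symm

theorem DFN_inj (k : ℕ) : DFN_Df L k fun M _ s => Function.Injective s := by
  have h : ∀ p : Fin k × Fin k, DFN_Df L k (fun M _ s => (s p.1 = s p.2 → p.1 = p.2)) := by
    intro p
    refine DFN_imp ⟨.eq p.1 p.2, fun M S s => Iff.rfl⟩ (DFN_const k _)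
  exact DFN_congr (DFN_alli h) fun M S s => ⟨fun h a b hab => h (a, b) hab,
    fun h p hp => h hp⟩

theorem DFN_alls (k j : ℕ) : ∀ {P : ∀ (M : Type) (_ : L.Structure M), (Fin (k + j) → M) → Prop},
    DFN_Df L (k + j) P → DFN_Df L k fun M S s =>
      ∀ t : Fin (k + j) → M, (∀ i : Fin k, t (Fin.castAdd j i) = s i) → P M S t := by
  induction j with
  | zero =>
    intro P hP
    refine DFN_congr (k := k) (P := fun M S s => P M S s) hP fun M S s => ?_
    constructor
    · intro h t ht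
      have : t = s := funext ht
      rw [this]
      exact h
    · intro h
      exact h s fun i => rfl
  | succ j ih =>
    intro P hP
    have h1 : DFN_Df L (k + j) fun M S t => ∀ x, P M S (Fin.snoc (α := fun _ => M) t x) :=
      DFN_congr (DFN_not (DFN_ex (DFN_not hP))) fun M S t => by
        push Not
        exact Iff.rfl
    refine DFN_congr (ih h1) fun M S s => ?_
    constructor
    · intro h t ht
      have h2 : P M S (Fin.snoc (α := fun _ => M) (fun i => t i.castSucc)
          (t (Fin.last (k + j)))) := h (fun i => t i.castSucc) (fun i => ht i) (t (Fin.last _))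
      have h3 : (Fin.snoc (α := fun _ => M) (fun i => t i.castSucc) (t (Fin.last (k + j)))) = t :=
        Fin.snoc_init_self t
      rw [h3] at h2
      exact h2
    · intro h t ht x
      refine h _ fun i => ?_
      have h3 : (Fin.castAdd (j + 1) i : Fin (k + (j + 1))) = (Fin.castAdd j i).castSucc := rfl
      rw [h3]
      exact (Fin.snoc_castSucc (α := fun _ => M) x t (Fin.castAdd j i)).trans (ht i)

theorem DFN_ext (k : ℕ) {Q : ∀ (l : ℕ) (M : Type) (_ : L.Structure M), (Fin l → M) → Prop}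
    (hQ : ∀ l, DFN_Df L l (Q l)) : DFN_Df L k fun M S s =>
      ∀ (l : ℕ) (t : Fin l → M), Function.Injective t → Ext s t → Q l M S t := by
  have h : ∀ j : ℕ, DFN_Df L k fun M S s => ∀ t : Fin (k + j) → M,
      (∀ i : Fin k, t (Fin.castAdd j i) = s i) → (Function.Injective t → Q (k + j) M S t) :=
    fun j => DFN_alls k j (DFN_imp (DFN_inj _) (hQ _))
  refine DFN_congr (DFN_all h) fun M S s => ?_
  constructor
  · rintro h l t ht ⟨hl, he⟩
    obtain ⟨j, rfl⟩ := Nat.exists_eq_add_of_le hl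
    exact h j t (fun i => he i) ht
  · intro h j t he ht
    exact h (k + j) t ht ⟨Nat.le_add_right _ _, fun i => he i⟩

theorem thm_DFN : St_DFN := by
  intro L b
  induction b with
  | fls => exact fun k => DFN_const k False
  | atm R a =>
    intro k
    refine DFN_ext k (Q := fun l M S t => ∀ h : ∀ i, a i < l, S.RelMap R (fun i => t ⟨a i, h i⟩))
      fun l => ?_
    by_cases hl : ∀ i, a i < l
    · exact DFN_congr ⟨.rel R fun i => ⟨a i, hl i⟩, fun M S s => Iff.rfl⟩ fun M S s =>
        ⟨fun h _ => h, fun h => h hl⟩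
    · exact DFN_congr (DFN_true l) fun M S s => ⟨fun _ h => absurd h hl, fun _ => trivial⟩
  | neg b ih =>
    intro k
    exact DFN_ext k (Q := fun l M S t => ¬ Fo S b t) fun l => DFN_not (ih l)
  | conj b ih =>
    intro k
    exact DFN_all (P := fun m M S s => Fo S (b m) s) fun m => ih m k

end VFS
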