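import Pool.Agent.VFS.St

/-!
# VFS, module FMO: forcing is monotone and dense sets force
-/

set_option autoImplicit false

namespace VFS

variable {L : FirstOrder.Language.{0, 0}} {M : Type}

theorem FMO_refl {k : ℕ} (s : Fin k → M) : Ext s s := ⟨le_rfl, fun _ => rfl⟩

theorem FMO_trans {k l j : ℕ} {s : Fin k → M} {t : Fin l → M} {u : Fin j → M} (h : Ext s t)
    (h' : Ext t u) : Ext s u := by
  obtain ⟨h1, h2⟩ := h
  obtain ⟨h3, h4⟩ := h'
  exact ⟨h1.trans h3, fun i => (h4 (Fin.castLE h1 i)).trans (h2 i)⟩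

theorem FMO_mono (S : L.Structure M) (b : Bc L) : ∀ (k l : ℕ) (s : Fin k → M) (t : Fin l → M),
    Ext s t → Fo S b s → Fo S b t := by
  induction b with
  | fls => intro k l s t _ h; exact h
  | atm R a => intro k l s t hst h j u hu htu; exact h j u hu (FMO_trans hst htu)
  | neg b _ => intro k l s t hst h j u hu htu; exact h j u hu (FMO_trans hst htu)
  | conj b ih => intro k l s t hst h m; exact ih m k l s t hst (h m)

theorem FMO_dense (S : L.Structure M) (b : Bc L) : ∀ (k : ℕ) (s : Fin k → M),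
    Function.Injective s → ¬ Fo S b s →
    ∃ (l : ℕ) (t : Fin l → M), Function.Injective t ∧ Ext s t ∧ Fo S (.neg b) t := by
  induction b with
  | fls => intro k s hs _; exact ⟨k, s, hs, FMO_refl s, fun l t _ _ h => h⟩
  | atm R a =>
    intro k s hs h
    simp only [Fo] at h
    push Not at h
    obtain ⟨l, t, ht, hst, hl, hn⟩ := h
    refine ⟨l, t, ht, hst, fun j u hu htu h' => hn ?_⟩
    obtain ⟨h3, h4⟩ := htu
    have h5 := h' j u hu (FMO_refl u) fun i => (hl i).trans_le h3
    have h6 : (fun i => u ⟨a i, (hl i).trans_le h3⟩) = fun i => t ⟨a i, hl i⟩ := by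
      funext i
      exact h4 ⟨a i, hl i⟩
    rw [h6] at h5
    exact h5
  | neg b _ =>
    intro k s hs h
    simp only [Fo] at h
    push Not at h
    obtain ⟨l, t, ht, hst, h1⟩ := h
    refine ⟨l, t, ht, hst, fun j u hu htu h' => ?_⟩
    exact h' j u hu (FMO_refl u) (FMO_mono S b _ _ t u htu h1)
  | conj b ih =>
    intro k s hs h
    simp only [Fo] at h
    push Not at h
    obtain ⟨m, hm⟩ := h
    obtain ⟨l, t, ht, hst, h1⟩ := ih m k s hs hm
    exact ⟨l, t, ht, hst, fun j u hu htu h' => h1 j u hu htu (h' m)⟩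

theorem thm_FMO : St_FMO := by
  intro L M S b
  exact ⟨fun k l s t _ => FMO_mono S b k l s t, FMO_dense S b⟩

end VFS
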