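import Pool.Agent.VFS.St

/-!
# VFS, module FSB: countable unions of closed sets are Borel
-/

set_option autoImplicit false

namespace VFS

open Set

theorem thm_FSB : St_FSB := by
  intro L hc K A hK hA
  classical
  subst hK
  unfold Bor
  letI : MeasurableSpace (L.Structure ℕ) :=
    MeasurableSpace.generateFrom {A : Set (L.Structure ℕ) |
      ∃ (n : ℕ) (R : L.Relations n) (a : Fin n → ℕ), A = {S : L.Structure ℕ | S.RelMap R a}}
  change MeasurableSet (⋃ i, A i)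
  refine MeasurableSet.iUnion fun i => ?_
  have hgen : ∀ r : (n : ℕ) × (L.Relations n × (Fin n → ℕ)),
      MeasurableSet {S : L.Structure ℕ | S.RelMap r.2.1 r.2.2} := fun r =>
    MeasurableSpace.measurableSet_generateFrom ⟨r.1, r.2.1, r.2.2, rfl⟩
  have hC : ∀ Φ Ψ : Finset ((n : ℕ) × (L.Relations n × (Fin n → ℕ))),
      MeasurableSet {S : L.Structure ℕ | ∀ r ∈ Φ, (S.RelMap r.2.1 r.2.2 ↔ r ∈ Ψ)} := by
    intro Φ Ψ
    have h1 : {S : L.Structure ℕ | ∀ r ∈ Φ, (S.RelMap r.2.1 r.2.2 ↔ r ∈ Ψ)} =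
        ⋂ r ∈ Φ, {S : L.Structure ℕ | S.RelMap r.2.1 r.2.2 ↔ r ∈ Ψ} := by
      ext S
      simp only [mem_ofPred_eq, mem_iInter]
    rw [h1]
    refine Finset.measurableSet_biInter _ fun r _ => ?_
    by_cases h : r ∈ Ψ
    · have h2 : {S : L.Structure ℕ | S.RelMap r.2.1 r.2.2 ↔ r ∈ Ψ} =
          {S : L.Structure ℕ | S.RelMap r.2.1 r.2.2} := by
        ext S
        simp only [mem_ofPred_eq, h, iff_true]
      rw [h2]
      exact hgen r
    · have h2 : {S : L.Structure ℕ | S.RelMap r.2.1 r.2.2 ↔ r ∈ Ψ} =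
          {S : L.Structure ℕ | S.RelMap r.2.1 r.2.2}ᶜ := by
        ext S
        simp only [mem_ofPred_eq, h, iff_false, mem_compl_iff]
      rw [h2]
      exact (hgen r).compl
  have hB : ∀ Φ : Finset ((n : ℕ) × (L.Relations n × (Fin n → ℕ))),
      MeasurableSet {S : L.Structure ℕ | ∃ S' ∈ A i,
        ∀ r ∈ Φ, (S'.RelMap r.2.1 r.2.2 ↔ S.RelMap r.2.1 r.2.2)} := by
    intro Φ
    have h1 : {S : L.Structure ℕ | ∃ S' ∈ A i,
        ∀ r ∈ Φ, (S'.RelMap r.2.1 r.2.2 ↔ S.RelMap r.2.1 r.2.2)} =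
        ⋃ Ψ ∈ Φ.powerset.filter (fun Ψ => ∃ S' ∈ A i, ∀ r ∈ Φ,
          (S'.RelMap r.2.1 r.2.2 ↔ r ∈ Ψ)),
          {S : L.Structure ℕ | ∀ r ∈ Φ, (S.RelMap r.2.1 r.2.2 ↔ r ∈ Ψ)} := by
      ext S
      simp only [mem_ofPred_eq, mem_iUnion, exists_prop, Finset.mem_filter, Finset.mem_powerset]
      constructor
      · rintro ⟨S', h2, h3⟩
        refine ⟨Φ.filter (fun r => S.RelMap r.2.1 r.2.2), ⟨Finset.filter_subset _ _,
          S', h2, fun r hr => ?_⟩, fun r hr => ?_⟩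
        · rw [h3 r hr, Finset.mem_filter]
          exact ⟨fun h => ⟨hr, h⟩, fun h => h.2⟩
        · rw [Finset.mem_filter]
          exact ⟨fun h => ⟨hr, h⟩, fun h => h.2⟩
      · rintro ⟨Ψ, ⟨-, S', h2, h3⟩, h4⟩
        exact ⟨S', h2, fun r hr => (h3 r hr).trans (h4 r hr).symm⟩
    rw [h1]
    exact Finset.measurableSet_biUnion _ fun Ψ _ => hC Φ Ψ
  have hAi : A i = ⋂ Φ : Finset ((n : ℕ) × (L.Relations n × (Fin n → ℕ))),
      {S : L.Structure ℕ | ∃ S' ∈ A i,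
        ∀ r ∈ Φ, (S'.RelMap r.2.1 r.2.2 ↔ S.RelMap r.2.1 r.2.2)} := by
    ext S
    simp only [mem_iInter, mem_ofPred_eq]
    exact ⟨fun h Φ => ⟨S, h, fun _ _ => Iff.rfl⟩, fun h => hA i S h⟩
  rw [hAi]
  exact MeasurableSet.iInter fun Φ => hB Φ

end VFS
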