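import Pool.Agent.VFS.St

/-!
# VFS: invariant `F_σ` classes satisfy the `F_σ` condition

Theorem `thm_FSI : St_FSI`.
-/

set_option autoImplicit false

namespace VFS

open Set Pool.Agent.Helper5.DU Pool.Agent.Helper6.Str Pool.Agent.Helper79.VC

theorem thm_FSI : St_FSI := by
  intro L _ K A g S hInv hK hA hS
  refine ⟨fun i => {f : ℕ → ℕ | pl S f ∈ A i}, ?_, ?_, ?_⟩
  · intro i
    apply isClosed_of_closure_subset
    intro f hf
    apply hA i
    intro Φ
    have hU : IsOpen {f' : ℕ → ℕ | ∀ r ∈ Φ, ∀ j : Fin r.1, f' (r.2.2 j) = f (r.2.2 j)} := by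
      have : {f' : ℕ → ℕ | ∀ r ∈ Φ, ∀ j : Fin r.1, f' (r.2.2 j) = f (r.2.2 j)} =
          ⋂ r ∈ Φ, ⋂ j : Fin r.1, (fun f' : ℕ → ℕ => f' (r.2.2 j)) ⁻¹' {f (r.2.2 j)} := by
        ext f'
        simp
      rw [this]
      apply isOpen_biInter_finset
      intro r _
      apply isOpen_iInter_of_finite
      intro j
      exact (isOpen_discrete _).preimage (continuous_apply _)
    obtain ⟨f', hf'U, hf'C⟩ := mem_closure_iff.1 hf _ hU (fun r _ j => rfl)
    refine ⟨pl S f', hf'C, fun r hr => ?_⟩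
    have h : (fun j => f' (r.2.2 j)) = fun j => f (r.2.2 j) := funext fun j => hf'U r hr j
    show S.RelMap r.2.1 (fun j => f' (r.2.2 j)) ↔ S.RelMap r.2.1 (fun j => f (r.2.2 j))
    rw [h]
  · intro f hf
    have h1 : Iso (pl S f) S := ⟨Equiv.ofBijective f hf, fun n R v => Iff.rfl⟩
    have h2 : pl S f ∈ K := hInv S (pl S f) ((nonempty_equiv_iff _ _).2 h1.symm) hS
    rw [hK] at h2
    obtain ⟨i, hi⟩ := mem_iUnion.1 h2
    exact ⟨i, hi⟩
  · intro i f hf _ S' hS'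
    have h1 : pl S f ∈ K := by
      rw [hK]
      exact mem_iUnion.2 ⟨i, hf⟩
    have h2 : Iso S' (pl S f) := ⟨Equiv.refl ℕ, fun n R v => hS' n R v⟩
    exact hInv _ _ ((nonempty_equiv_iff _ _).2 h2.symm) h1

end VFS

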