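import Pool.Agent.VFS.St

/-!
# VFS: fusion

Theorem `thm_FUS : St_FUS`.
-/

set_option autoImplicit false

namespace VFS

open Set Function

/-- injective tuples -/
private def FUS_T : Type := (k : ℕ) × {s : Fin k → ℕ // Injective s}

private theorem FUS_refl {k : ℕ} (s : Fin k → ℕ) : Ext s s := ⟨le_rfl, fun _ => rfl⟩

private theorem FUS_trans {k l m : ℕ} {s : Fin k → ℕ} {t : Fin l → ℕ} {u : Fin m → ℕ}
    (h1 : Ext s t) (h2 : Ext t u) : Ext s u := by
  obtain ⟨a, ha⟩ := h1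
  obtain ⟨b, hb⟩ := h2
  refine ⟨a.trans b, fun i => ?_⟩
  rw [← ha i, ← hb (Fin.castLE a i)]
  rfl

/-- one step -/
private theorem FUS_step (D : ℕ → ∀ k : ℕ, Set (Fin k → ℕ))
    (hD : ∀ (i k : ℕ) (s : Fin k → ℕ), Injective s → ∃ (l : ℕ) (t : Fin l → ℕ),
      Injective t ∧ Ext s t ∧ t ∈ D i l) (i : ℕ) (a : FUS_T) :
    ∃ b : FUS_T, Ext a.2.1 b.2.1 ∧ (∃ j, b.2.1 j = i) ∧
      ∃ (l : ℕ) (t : Fin l → ℕ), t ∈ D i l ∧ Ext t b.2.1 := by
  obtain ⟨l, t, ht, hst, htD⟩ := hD i a.1 a.2.1 a.2.2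
  by_cases h : ∃ j, t j = i
  · exact ⟨⟨l, t, ht⟩, hst, h, l, t, htD, FUS_refl t⟩
  · have hext : Ext t (Fin.snoc (α := fun _ => ℕ) t i : Fin (l + 1) → ℕ) := by
      refine ⟨Nat.le_succ l, fun j => ?_⟩
      exact Fin.snoc_castSucc (α := fun _ => ℕ) i t j
    have hinj : Injective (Fin.snoc (α := fun _ => ℕ) t i : Fin (l + 1) → ℕ) := by
      intro x y hxy
      induction x using Fin.lastCases with
      | last =>
        induction y using Fin.lastCases with
        | last => rfl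
        | cast y =>
          rw [Fin.snoc_last, Fin.snoc_castSucc] at hxy
          exact absurd ⟨y, hxy.symm⟩ h
      | cast x =>
        induction y using Fin.lastCases with
        | last =>
          rw [Fin.snoc_last, Fin.snoc_castSucc] at hxy
          exact absurd ⟨x, hxy⟩ h
        | cast y =>
          rw [Fin.snoc_castSucc, Fin.snoc_castSucc] at hxy
          rw [ht hxy]
    exact ⟨⟨l + 1, _, hinj⟩, FUS_trans hst hext,
      ⟨Fin.last l, Fin.snoc_last (α := fun _ => ℕ) i t⟩, l, t, htD, hext⟩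

/-- [FUS] generic permutations exist -/
theorem thm_FUS : St_FUS := by
  intro D hD k s hs
  choose nx hx1 hx2 hx3 using FUS_step D hD
  -- the sequence
  obtain ⟨q, hq0, hqs⟩ : ∃ q : ℕ → FUS_T, q 0 = ⟨k, s, hs⟩ ∧ ∀ j, q (j + 1) = nx j (q j) :=
    ⟨fun n => Nat.rec (⟨k, s, hs⟩ : FUS_T) (fun j a => nx j a) n, rfl, fun j => rfl⟩
  have hsucc : ∀ j, Ext (q j).2.1 (q (j + 1)).2.1 := by
    intro j
    rw [hqs]
    exact hx1 j (q j)
  have hmono : ∀ i d, Ext (q i).2.1 (q (i + d)).2.1 := by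
    intro i d
    induction d with
    | zero => exact FUS_refl _
    | succ d ih => exact FUS_trans ih (hsucc (i + d))
  have hle : ∀ i j, i ≤ j → Ext (q i).2.1 (q j).2.1 := by
    intro i j hij
    obtain ⟨d, rfl⟩ := Nat.exists_eq_add_of_le hij
    exact hmono i d
  have hsur : ∀ j, ∃ x, (q (j + 1)).2.1 x = j := by
    intro j
    rw [hqs]
    exact hx2 j (q j)
  -- the lengths are unbounded
  have hlen : ∀ n, n < (q (n + 1)).1 := by
    intro n
    have h1 : ∀ m : Fin (n + 1), ∃ x, (q (n + 1)).2.1 x = m := by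
      intro m
      obtain ⟨x, hx⟩ := hsur m
      obtain ⟨a, ha⟩ := hle (m + 1) (n + 1) (by omega)
      exact ⟨Fin.castLE a x, by rw [ha, hx]⟩
    choose φ hφ using h1
    have hinj : Injective φ := by
      intro a b hab
      apply Fin.ext
      rw [← hφ a, ← hφ b, hab]
    have h2 := Fintype.card_le_of_injective φ hinj
    rw [Fintype.card_fin, Fintype.card_fin] at h2
    omega
  obtain ⟨g, hg⟩ : ∃ g : ℕ → ℕ, ∀ n, g n = (q (n + 1)).2.1 ⟨n, hlen n⟩ := ⟨_, fun n => rfl⟩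
  have hcomp : ∀ (j n : ℕ) (h : n < (q j).1), (q j).2.1 ⟨n, h⟩ = g n := by
    intro j n h
    rw [hg]
    rcases le_total j (n + 1) with h1 | h1
    · obtain ⟨a, ha⟩ := hle j (n + 1) h1
      exact (ha ⟨n, h⟩).symm
    · obtain ⟨a, ha⟩ := hle (n + 1) j h1
      exact ha ⟨n, hlen n⟩
  have hext : ∀ (j l : ℕ) (t : Fin l → ℕ), Ext t (q j).2.1 → rs g l = t := by
    intro j l t ht
    obtain ⟨a, ha⟩ := ht
    funext i
    rw [← ha i]
    show g i = _
    rw [← hcomp j i (lt_of_lt_of_le i.2 a)]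
    rfl
  refine ⟨g, ⟨?_, ?_⟩, ?_, ?_⟩
  · intro m n hmn
    have h1 : ∀ i, i ≤ max m n → i < (q (max m n + 1)).1 := fun i hi =>
      lt_of_le_of_lt hi (hlen (max m n))
    have h2 := h1 m (le_max_left m n)
    have h3 := h1 n (le_max_right m n)
    rw [← hcomp _ m h2, ← hcomp _ n h3] at hmn
    have h4 := (q (max m n + 1)).2.2 hmn
    exact (Fin.mk.injEq ..).mp h4
  · intro n
    obtain ⟨x, hx⟩ := hsur n
    refine ⟨x, ?_⟩
    rw [← hcomp (n + 1) x x.2]
    exact hx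
  · apply hext 0
    rw [hq0]
    exact FUS_refl s
  · intro i
    obtain ⟨l, t, htD, hte⟩ := hx3 i (q i)
    refine ⟨l, ?_⟩
    rw [← hqs] at hte
    rw [hext (i + 1) l t hte]
    exact htD

end VFS
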