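import Pool.Agent.VFS.St

/-!
# VFS: forcing equals truth for invariant Borel sets
-/

set_option autoImplicit false
set_option linter.unusedSectionVars false

namespace VFS

open Set Pool.Agent.Helper5.DU Pool.Agent.Helper6.Str Pool.Agent.Helper79.VC

variable {L : FirstOrder.Language.{0, 0}}

theorem GEN_ext_rs (g : ℕ → ℕ) {k l : ℕ} (h : k ≤ l) : Ext (rs g k) (rs g l) :=
  ⟨h, fun _ => rfl⟩

theorem GEN_inj {g : ℕ → ℕ} (hg : Function.Injective g) (k : ℕ) :
    Function.Injective (rs g k) := fun i j hij => Fin.ext (hg hij)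

/-- `g` meets all dense sets which are needed for the code -/
def GEN_Gn (S : L.Structure ℕ) : Bc L → (ℕ → ℕ) → Prop
  | .fls, _ => True
  | .atm _ _, _ => True
  | .neg b, g => GEN_Gn S b g ∧ ∃ l, Fo S b (rs g l) ∨ Fo S (.neg b) (rs g l)
  | .conj b, g => (∀ m, GEN_Gn S (b m) g) ∧
      ∃ l, Fo S (.conj b) (rs g l) ∨ ∃ m, Fo S (.neg (b m)) (rs g l)

/-- a code and its negation are not both forced along `g` -/
theorem GEN_not_both (h1 : St_FMO) (S : L.Structure ℕ) (b : Bc L) {g : ℕ → ℕ}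
    (hg : Function.Injective g) {l l' : ℕ} (hl : Fo S (.neg b) (rs g l))
    (hl' : Fo S b (rs g l')) : False := by
  have h2 : Fo S b (rs g (max l l')) :=
    (h1 L ℕ S b).1 _ _ _ _ (GEN_inj hg _) (GEN_ext_rs g (le_max_right l l')) hl'
  have h3 : ∀ (k : ℕ) (t : Fin k → ℕ), Function.Injective t → Ext (rs g l) t → ¬ Fo S b t := hl
  exact h3 _ _ (GEN_inj hg _) (GEN_ext_rs g (le_max_left l l')) h2

theorem GEN_truth (h1 : St_FMO) [∀ n, IsEmpty (L.Functions n)] (S : L.Structure ℕ) (b : Bc L)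
    {g : ℕ → ℕ} (hg : Function.Injective g) :
    GEN_Gn S b g → (Ev b (pl S g) ↔ ∃ l, Fo S b (rs g l)) := by
  induction b with
  | fls =>
    intro _
    constructor
    · intro h
      exact h.elim
    · rintro ⟨l, h⟩
      exact h.elim
  | @atm n R a =>
    intro _
    have hpl : Ev (.atm R a) (pl S g) ↔ S.RelMap R (fun i => g (a i)) := Iff.rfl
    rw [hpl]
    constructor
    · intro h
      refine ⟨(Finset.univ.sup a) + 1, ?_⟩
      intro l t _ he hl
      obtain ⟨hle, he'⟩ := he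
      have h2 : ∀ i, a i < (Finset.univ.sup a) + 1 := fun i =>
        Nat.lt_succ_of_le (Finset.le_sup (f := a) (Finset.mem_univ i))
      have h3 : (fun i => t ⟨a i, hl i⟩) = fun i => g (a i) := by
        funext i
        exact he' ⟨a i, h2 i⟩
      rw [h3]
      exact h
    · rintro ⟨l, h⟩
      have h4 : ∀ (k : ℕ) (t : Fin k → ℕ), Function.Injective t → Ext (rs g l) t →
        ∀ h : ∀ i, a i < k, S.RelMap R (fun i => t ⟨a i, h i⟩) := h
      have h2 : ∀ i, a i < max l ((Finset.univ.sup a) + 1) := fun i =>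
        lt_of_lt_of_le (Nat.lt_succ_of_le (Finset.le_sup (f := a) (Finset.mem_univ i)))
          (le_max_right _ _)
      exact h4 _ _ (GEN_inj hg _) (GEN_ext_rs g (le_max_left _ _)) h2
  | neg b ih =>
    rintro ⟨hb, l, hl⟩
    have h2 := ih hb
    have hpl : Ev (.neg b) (pl S g) ↔ ¬ Ev b (pl S g) := Iff.rfl
    rw [hpl, h2]
    constructor
    · intro h
      rcases hl with hl | hl
      · exact absurd ⟨l, hl⟩ h
      · exact ⟨l, hl⟩
    · rintro ⟨l', hl'⟩ ⟨k, hk⟩
      exact GEN_not_both h1 S b hg hl' hk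
  | conj b ih =>
    rintro ⟨hb, l, hl⟩
    have hpl : Ev (.conj b) (pl S g) ↔ ∀ m, Ev (b m) (pl S g) := Iff.rfl
    rw [hpl]
    constructor
    · intro h
      rcases hl with hl | ⟨m, hm⟩
      · exact ⟨l, hl⟩
      · exfalso
        obtain ⟨k, hk⟩ := (ih m (hb m)).1 (h m)
        exact GEN_not_both h1 S (b m) hg hm hk
    · rintro ⟨k, hk⟩ m
      have hk' : ∀ m, Fo S (b m) (rs g k) := hk
      exact (ih m (hb m)).2 ⟨k, hk' m⟩

/-- density -/
def GEN_Dense (D : ℕ → ∀ k : ℕ, Set (Fin k → ℕ)) : Prop :=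
  ∀ (i k : ℕ) (s : Fin k → ℕ), Function.Injective s → ∃ (l : ℕ) (t : Fin l → ℕ),
    Function.Injective t ∧ Ext s t ∧ t ∈ D i l

theorem GEN_ext_refl {k : ℕ} (s : Fin k → ℕ) : Ext s s := ⟨le_refl _, fun _ => rfl⟩

theorem GEN_dense (h1 : St_FMO) (S : L.Structure ℕ) (b : Bc L) :
    ∃ D : ℕ → ∀ k : ℕ, Set (Fin k → ℕ), GEN_Dense D ∧
      ∀ g : ℕ → ℕ, (∀ i, ∃ l, rs g l ∈ D i l) → GEN_Gn S b g := by
  induction b with
  | fls => exact ⟨fun _ _ => univ, fun _ k s hs => ⟨k, s, hs, GEN_ext_refl s, mem_univ _⟩,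
      fun _ _ => trivial⟩
  | atm R a => exact ⟨fun _ _ => univ, fun _ k s hs => ⟨k, s, hs, GEN_ext_refl s, mem_univ _⟩,
      fun _ _ => trivial⟩
  | neg b ih =>
    obtain ⟨D, hD, hG⟩ := ih
    refine ⟨fun i k => if i = 0 then {t | Fo S b t ∨ Fo S (.neg b) t} else D (i - 1) k, ?_, ?_⟩
    · intro i k s hs
      by_cases hi : i = 0
      · simp only [if_pos hi, mem_setOf_eq]
        by_cases hx : ∃ (l : ℕ) (t : Fin l → ℕ), Function.Injective t ∧ Ext s t ∧ Fo S b t
        · obtain ⟨l, t, ht, hst, hf⟩ := hx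
          exact ⟨l, t, ht, hst, Or.inl hf⟩
        · refine ⟨k, s, hs, GEN_ext_refl s, Or.inr ?_⟩
          intro l t ht hst hf
          exact hx ⟨l, t, ht, hst, hf⟩
      · simp only [if_neg hi]
        exact hD (i - 1) k s hs
    · intro g hg
      refine ⟨hG g fun i => ?_, ?_⟩
      · have h2 := hg (i + 1)
        simp only [Nat.succ_ne_zero, if_false, Nat.add_sub_cancel] at h2
        exact h2
      · have h2 := hg 0
        simp only [if_true, mem_setOf_eq] at h2
        exact h2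
  | conj b ih =>
    choose D hD hG using ih
    refine ⟨fun i k => if i = 0 then {t | Fo S (.conj b) t ∨ ∃ m, Fo S (.neg (b m)) t}
      else D (Nat.unpair (i - 1)).1 (Nat.unpair (i - 1)).2 k, ?_, ?_⟩
    · intro i k s hs
      by_cases hi : i = 0
      · simp only [if_pos hi, mem_setOf_eq]
        by_cases hx : Fo S (.conj b) s
        · exact ⟨k, s, hs, GEN_ext_refl s, Or.inl hx⟩
        · have hx' : ¬ ∀ m, Fo S (b m) s := hx
          push Not at hx'
          obtain ⟨m, hm⟩ := hx'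
          obtain ⟨l, t, ht, hst, hf⟩ := (h1 L ℕ S (b m)).2 k s hs hm
          exact ⟨l, t, ht, hst, Or.inr ⟨m, hf⟩⟩
      · simp only [if_neg hi]
        exact hD _ _ k s hs
    · intro g hg
      refine ⟨fun m => hG m g fun i => ?_, ?_⟩
      · have h2 := hg (Nat.pair m i + 1)
        simp only [Nat.succ_ne_zero, if_false, Nat.add_sub_cancel, Nat.unpair_pair] at h2
        exact h2
      · have h2 := hg 0
        simp only [if_true, mem_setOf_eq] at h2
        exact h2

/-- a generic permutation which extends a given finite injection -/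
theorem GEN_exists (h1 : St_FMO) (h2 : St_FUS) (S : L.Structure ℕ) (b : Bc L) {k : ℕ}
    {s : Fin k → ℕ} (hs : Function.Injective s) :
    ∃ g : ℕ → ℕ, Function.Bijective g ∧ rs g k = s ∧ GEN_Gn S b g := by
  obtain ⟨D, hD, hG⟩ := GEN_dense h1 S b
  obtain ⟨g, hg, hgs, hgD⟩ := h2 D hD k s hs
  exact ⟨g, hg, hgs, hG g hgD⟩

theorem thm_GEN (h1 : St_FMO) (h2 : St_FUS) : St_GEN := by
  intro L _ S b hinv
  have h0 : Function.Injective (Fin.elim0 : Fin 0 → ℕ) := fun i => i.elim0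
  constructor
  · intro hE
    by_contra hF
    obtain ⟨l, t, ht, -, hft⟩ := (h1 L ℕ S b).2 0 _ h0 hF
    obtain ⟨g, hg, hgt, hG⟩ := GEN_exists h1 h2 S (.neg b) ht
    have h3 : Ev (.neg b) (pl S g) :=
      (GEN_truth h1 S (.neg b) hg.1 hG).2 ⟨l, by rw [hgt]; exact hft⟩
    have h4 : ¬ Ev b (pl S g) := h3
    exact h4 ((hinv g hg).2 hE)
  · intro hF
    obtain ⟨g, hg, hgt, hG⟩ := GEN_exists h1 h2 S b h0
    exact (hinv g hg).1 ((GEN_truth h1 S b hg.1 hG).2 ⟨0, by rw [hgt]; exact hF⟩)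

end VFS
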