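import Pool.Agent.VFS.St

/-!
# VFS, module LES: the theorem of Lopez-Escobar
-/

set_option autoImplicit false

namespace VFS

open Set Pool.Agent.Helper5.DU Pool.Agent.Helper6.Str Pool.Agent.Helper79.VC

variable {L : FirstOrder.Language.{0, 0}}

private theorem LES_iso [∀ n, IsEmpty (L.Functions n)] (S : L.Structure ℕ) (g : ℕ → ℕ)
    (hg : Function.Bijective g) :
    Nonempty (@FirstOrder.Language.Equiv L ℕ ℕ (pl S g) S) := by
  rw [nonempty_equiv_iff]
  exact ⟨Equiv.ofBijective g hg, fun n R v => Iff.rfl⟩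

private theorem LES_symm (S S' : L.Structure ℕ)
    (h : Nonempty (@FirstOrder.Language.Equiv L ℕ ℕ S S')) :
    Nonempty (@FirstOrder.Language.Equiv L ℕ ℕ S' S) := by
  obtain ⟨e⟩ := h
  exact ⟨@FirstOrder.Language.Equiv.symm L ℕ ℕ S S' e⟩

theorem thm_LES (h1 : St_BCD) (h2 : St_GEN) (h3 : St_DFN) : St_LES := by
  intro L _ K hB hI
  obtain ⟨b, hb⟩ := h1 L K hB
  obtain ⟨φ, hφ⟩ := h3 L b 0
  refine ⟨φ, fun S => ?_⟩
  rw [hb S, hφ ℕ S Fin.elim0]
  refine h2 L S b fun g hg => ?_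
  rw [← hb, ← hb]
  have hiso := LES_iso S g hg
  exact ⟨hI _ _ hiso, hI _ _ (LES_symm _ _ hiso)⟩

end VFS
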