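import Pool.Agent.VFS.Defs

/-!
# VFS: statements

Every module proves `thm_XXX : St_XXX` in `Pool/Agent/VFS/XXX.lean`; statements used are taken as
hypotheses, e.g. `theorem thm_GEN (h1 : St_FMO) (h2 : St_FUS) : St_GEN`.
-/

set_option autoImplicit false

namespace VFS

open Set Pool.Agent.Helper5.DU Pool.Agent.Helper6.Str Pool.Agent.Helper79.VC

/-- [BCD] (0.3 h; no other module) Borel sets have codes.

Proof. `MeasurableSpace.generateFrom_induction` (or `MeasurableSet.induction_on`-like) for the
predicate `fun K => ∃ b : Bc L, ∀ S, S ∈ K ↔ Ev b S`. Generators: `Bc.atm R a`. Empty set: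
`Bc.fls`. Complement: `Bc.neg`. Countable unions: choose codes `c i` of the members, take
`Bc.neg (Bc.conj fun i => Bc.neg (c i))`. -/
def St_BCD : Prop := ∀ (L : FirstOrder.Language.{0, 0}) (K : Set (L.Structure ℕ)), Bor K →
  ∃ b : Bc L, ∀ S, S ∈ K ↔ Ev b S

/-- [FMO] (0.5 h; no other module) Forcing is monotone and dense sets force.

Proof. `Ext` is reflexive and transitive. (1) Induction on `b` (generalizing `k`, `s`): for `fls`
trivial, `atm` and `neg` by transitivity of `Ext`, `conj` by induction. (2) Induction on `b`: if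
`¬ Fo S b s` we find `t` with `Fo S (.neg b) t`. `fls`: `t = s`. `atm R a`: there are `l`, `t`
injective, `Ext s t`, `h : ∀ i, a i < l` with `¬ S.RelMap R ..`; for an extension `u` of `t`
`Fo S (.atm R a) u` would give (for `u` itself) `S.RelMap R (fun i => u ⟨a i, _⟩)`, and
`u ⟨a i, _⟩ = t ⟨a i, _⟩`. `neg b`: there is `t` injective, `Ext s t`, `Fo S b t`; by (1)
`Fo S b u` for all extensions `u` of `t`, hence `¬ Fo S (.neg b) u` (apply it to `u` and the
extension `u`). `conj b`: some `m` with `¬ Fo S (b m) s`, by induction `t` with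
`Fo S (.neg (b m)) t`, and then `Fo S (.neg (.conj b)) t`. -/
def St_FMO : Prop := ∀ (L : FirstOrder.Language.{0, 0}) (M : Type) (S : L.Structure M) (b : Bc L),
  (∀ (k l : ℕ) (s : Fin k → M) (t : Fin l → M), Function.Injective t → Ext s t → Fo S b s →
    Fo S b t) ∧
  ∀ (k : ℕ) (s : Fin k → M), Function.Injective s → ¬ Fo S b s →
    ∃ (l : ℕ) (t : Fin l → M), Function.Injective t ∧ Ext s t ∧ Fo S (.neg b) t

/-- [FUS] (0.7 h; no other module) Fusion: generic permutations exist. Here `D i` is a dense set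
of finite injections for every `i`.

Proof. Build a sequence of injective tuples `s j : Fin (k j) → ℕ`, each extending the previous one,
`s 0 = s`: given `s j` take an extension `t` in `D j` (density), then append `j` if it is not in
the range of `t`, then append a new element (not in the range) so that the length increases. The
tuples define `g : ℕ → ℕ` by `g n = s j n` for any `j` with `n < k j` (`n < k (n + 1)` because the
lengths increase strictly). `g` is injective, onto (`j` is in the range of `s (j + 1)`), and for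
every `i` there is `k` with `k = ` length of the member of `D i`, `rs g k ∈ D i`. It may be
convenient to work with `Σ k, Fin k → ℕ` or with `List ℕ` internally. -/
def St_FUS : Prop := ∀ (D : ℕ → ∀ k : ℕ, Set (Fin k → ℕ)),
  (∀ (i k : ℕ) (s : Fin k → ℕ), Function.Injective s → ∃ (l : ℕ) (t : Fin l → ℕ),
    Function.Injective t ∧ Ext s t ∧ t ∈ D i l) →
  ∀ (k : ℕ) (s : Fin k → ℕ), Function.Injective s → ∃ g : ℕ → ℕ, Function.Bijective g ∧
    rs g k = s ∧ ∀ i, ∃ l, rs g l ∈ D i l

/-- [GEN] (1 h; uses `St_FMO`, `St_FUS`) Forcing equals truth for invariant Borel sets.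

Proof. For a code `b` let `Dn b` be the countable family of the following dense sets, over all
subcodes `c` of `b` (define it as a predicate on permutations: `Gn : Bc L → (ℕ → ℕ) → Prop` by
recursion on the code, `Gn .fls g = True`, `Gn (.atm R a) g = True`,
`Gn (.neg b) g = (Gn b g ∧ ∃ l, Fo S b (rs g l) ∨ Fo S (.neg b) (rs g l))`,
`Gn (.conj b) g = ((∀ m, Gn (b m) g) ∧ ∃ l, Fo S (.conj b) (rs g l) ∨ ∃ m, Fo S (.neg (b m)) (rs g l))`).
(1) Truth lemma: if `g` is bijective and `Gn b g`, then `Ev b (pl S g) ↔ ∃ l, Fo S b (rs g l)`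
(`pl S g` = the structure with the relations `S.RelMap R (fun i => g (v i))`). Induction on `b`.
`atm R a`: `←`: apply `Fo` to `t = rs g l'` with `l' ≥ l` larger than all `a i`. `→`:
`l` larger than all `a i` (`Finset.univ.sup`), `Ext (rs g l) t` gives `t ⟨a i, _⟩ = g (a i)`.
`neg b`: if `Fo S (.neg b) (rs g l)` and `Fo S b (rs g l')` then, by monotonicity ([FMO] (1)),
both for `rs g (max l l')`: contradiction. `conj b`: `←` clear. `→`: if `Fo S (.neg (b m)) (rs g l)`
then `Ev (b m) (pl S g)` fails as in the case `neg`.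
(2) For every code `b` there is a sequence `D i` of dense sets such that every permutation `g` which
meets all of them satisfies `Gn b g`: induction on `b`; the families of the `b m` are combined by
`Nat.unpair`; the new dense sets are `{t | Fo S b t ∨ Fo S (.neg b) t}` (dense: if no extension
`t` of `s` satisfies `Fo S b t` then `Fo S (.neg b) s`) and
`{t | Fo S (.conj b) t ∨ ∃ m, Fo S (.neg (b m)) t}` (dense by [FMO] (2): if `¬ Fo S (.conj b) s`
then `¬ Fo S (b m) s` for some `m`).
(3) If `Ev b S` and `¬ Fo S b Fin.elim0` take `t` with `Fo S (.neg b) t` by [FMO] (2) and, by [FUS]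
and (2) for the code `.neg b`, a permutation `g` extending `t` with `Gn (.neg b) g`; by (1)
`Ev (.neg b) (pl S g)`, against the invariance. If `Fo S b Fin.elim0` take `g` with `Gn b g`
extending the empty tuple; by (1) `Ev b (pl S g)`, so `Ev b S`. -/
def St_GEN : Prop := ∀ (L : FirstOrder.Language.{0, 0}) [∀ n, IsEmpty (L.Functions n)]
  (S : L.Structure ℕ) (b : Bc L),
  (∀ g : ℕ → ℕ, Function.Bijective g → (Ev b (pl S g) ↔ Ev b S)) →
  (Ev b S ↔ Fo S b (Fin.elim0 : Fin 0 → ℕ))

/-- [DFN] (0.8 h; no other module) Forcing is definable.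

Proof. Auxiliary formulas: `inj n : FmI L n` (conjunction of the formulas `¬ v i = v j`, `i ≠ j`;
finite or empty conjunctions are written with `FmI.conj` over `ℕ` by repeating, the true formula
for `n = 0` is e.g. `neg (ex (neg (eq 0 0)))`); for `F : FmI L (k + j)` the formula
`alls k j F : FmI L k`, with `Sat S (alls k j F) s ↔ ∀ t : Fin (k + j) → ℕ, (∀ i : Fin k,
t (Fin.castAdd j i) = s i) → Sat S F t`, by recursion on `j` (`neg (ex (neg F))`, `Fin.snoc`). The
extensions `t : Fin l → ℕ` of `s : Fin k → ℕ` are the `t : Fin (k + j) → ℕ`, `l = k + j`.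
Recursion on `b`, for all `k`: `fls`: `neg` of a true formula. `atm R a`: conjunction over `j` of
`alls k j (inj → rel R (fun i => ⟨a i, _⟩))` for the `j` with `∀ i, a i < k + j`, and true for the
other `j`. `neg b`: conjunction over `j` of `alls k j (inj → neg φ_(k+j))`. `conj b`: conjunction.
(`A → B` is `neg (conj (A, neg B, neg B, ..))`.) -/
def St_DFN : Prop := ∀ (L : FirstOrder.Language.{0, 0}) (b : Bc L) (k : ℕ), ∃ φ : FmI L k,
  ∀ (M : Type) (S : L.Structure M) (s : Fin k → M), Sat S φ s ↔ Fo S b s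

/-- [LES] (0.4 h; uses `St_BCD`, `St_GEN`, `St_DFN`) The theorem of Lopez-Escobar.

Proof. Code `b` of `K` by [BCD], `φ` by [DFN] for `k = 0`. By [GEN] `S ∈ K ↔ Ev b S ↔ Fo S b _ ↔
Sat S φ _`; the hypothesis of [GEN]: `pl S g` and `S` are isomorphic (`nonempty_equiv_iff` of
`VB/A.lean`, with `Equiv.ofBijective g`), `Inv K` in both directions. -/
def St_LES : Prop := ∀ (L : FirstOrder.Language.{0, 0}) [∀ n, IsEmpty (L.Functions n)]
  (K : Set (L.Structure ℕ)), Bor K → Inv K →
  ∃ φ : FmI L 0, ∀ S : L.Structure ℕ, S ∈ K ↔ Sat S φ (Fin.elim0 : Fin 0 → ℕ)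

/-- [BAI] (1 h; uses `St_FUS`) The `F_σ` condition gives the closure condition.

Proof. Let `C` be as in `FsC`. Claim: there are `i`, `k` and an injective `s : Fin k → ℕ` such that
all `f ∈ InjC S g` with `rs f k = s` are in `C i`. Otherwise let
`D i l := {t : Fin l → ℕ | ∀ f, rs f l = t → f ∉ C i}`. It is dense: given `s` injective, by
assumption there is `f ∈ InjC S g`, `rs f k = s`, `f ∉ C i`; the complement of `C i` is open, so
there is `l` (take it `≥ k`) such that all `f'` with `rs f' l = rs f l` are not in `C i` (the basic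
open sets of `ℕ → ℕ` are given by finitely many coordinates: e.g. `isOpen_pi_iff` with
`Finset.sup`, or `PiNat.isOpen_iff_dist`/cylinders); `t := rs f l`. [FUS] gives a permutation `g`
with `rs g l ∈ D i l` for suitable `l`, for all `i`, so `g ∉ C i` for all `i`, against the
hypothesis on `C`.
Let `F := range s`. Let `f ∈ InjC S g`, `F ⊆ range f`. There is a permutation `π` of `ℕ` with
`f (π j) = s j` for `j < k`: the finite injection `j ↦ f⁻¹ (s j)` extends to a permutation
(`Function.Injective.extend`-like: `Equiv.extendSubtype`/`Finset.exists_equiv_extend_of_card_eq`, or [FUS] with `D = univ`).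
`f ∘ π ∈ InjC S g` has the same range, so `f ∘ π ∈ C i` and `pl S (f ∘ π) ∈ K`; it is isomorphic to
every `S'` with `Ind S f S'`, so `S' ∈ K`. -/
def St_BAI : Prop := ∀ (L : FirstOrder.Language.{0, 0}) [∀ n, IsEmpty (L.Functions n)]
  (K : Set (L.Structure ℕ)) (g : Set (L.Relations 2)) (S : L.Structure ℕ), Inv K → FsC K g S →
  ∃ F : Set ℕ, F.Finite ∧ ∀ f ∈ InjC S g, F ⊆ range f → ∀ S' : L.Structure ℕ, Ind S f S' → S' ∈ K

/-- [FSI] (0.7 h; no other module) Invariant `F_σ` classes satisfy the `F_σ` condition.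

Proof. Let `C i := {f : ℕ → ℕ | pl S f ∈ A i}` (`pl S f` has the relations
`S.RelMap R (fun i => f (v i))`, `A i` is closed: it is the set of the structures all of whose
finite parts, given by finitely many atomic facts, are parts of members). `C i` is closed: if `f` is
in the closure, then for every finite set `Φ` of pairs `(R, a)` there is `f' ∈ C i` which agrees
with `f` on the finitely many numbers occurring in `Φ`; `pl S f'` and `pl S f` agree on `Φ`; so
`pl S f ∈ A i` by the hypothesis on `A i`. If `f` is bijective, `pl S f ≅ S`, so `pl S f ∈ K` and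
`f ∈ C i` for some `i`. If `f ∈ C i` and `Ind S f S'` then `S' = pl S f` up to the (empty) function
part: `S'` and `pl S f` are isomorphic by the identity, `S' ∈ K` by `Inv K`. -/
def St_FSI : Prop := ∀ (L : FirstOrder.Language.{0, 0}) [∀ n, IsEmpty (L.Functions n)]
  (K : Set (L.Structure ℕ)) (A : ℕ → Set (L.Structure ℕ)) (g : Set (L.Relations 2))
  (S : L.Structure ℕ), Inv K → K = ⋃ i, A i →
  (∀ i, ∀ S : L.Structure ℕ, (∀ Φ : Finset ((n : ℕ) × (L.Relations n × (Fin n → ℕ))),
    ∃ S' ∈ A i, ∀ r ∈ Φ, (S'.RelMap r.2.1 r.2.2 ↔ S.RelMap r.2.1 r.2.2)) → S ∈ A i) →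
  S ∈ K → FsC K g S

/-- [FSB] (0.6 h; no other module) Countable unions of closed sets are Borel.

Proof. `Bor` is closed under countable unions, countable intersections, complements (it is
`MeasurableSet` for a σ-algebra); so let `A` be closed (one of the `A i`). The type
`I := (n : ℕ) × (L.Relations n × (Fin n → ℕ))` is countable, so `Finset I` is countable. For a
finite set `Φ` let `B Φ := {S | ∃ S' ∈ A, ∀ r ∈ Φ, (S'.RelMap r.2.1 r.2.2 ↔ S.RelMap r.2.1 r.2.2)}`. By
the hypothesis `A = ⋂ Φ, B Φ`. `B Φ` is Borel: it is the union over the finitely many (or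
countably many) subsets `Ψ : Finset I` of `Φ` of the form `{r ∈ Φ | S' ⊨ r}`, `S' ∈ A`, of the sets
`⋂ r ∈ Φ, {S | S ⊨ r ↔ r ∈ Ψ}`; each `{S | S ⊨ r}` is a generator
(`MeasurableSpace.measurableSet_generateFrom`), `{S | S ⊨ r ↔ r ∈ Ψ}` is a generator or the complement
of one. (Write `m` for the σ-algebra and use `@MeasurableSet.iUnion _ m`, or
`letI : MeasurableSpace (L.Structure ℕ) := m`.) -/
def St_FSB : Prop := ∀ (L : FirstOrder.Language.{0, 0}) [∀ n, Countable (L.Relations n)]
  (K : Set (L.Structure ℕ)) (A : ℕ → Set (L.Structure ℕ)), K = ⋃ i, A i →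
  (∀ i, ∀ S : L.Structure ℕ, (∀ Φ : Finset ((n : ℕ) × (L.Relations n × (Fin n → ℕ))),
    ∃ S' ∈ A i, ∀ r ∈ Φ, (S'.RelMap r.2.1 r.2.2 ↔ S.RelMap r.2.1 r.2.2)) → S ∈ A i) →
  Bor K

end VFS
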