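import Pool.Agent.VB.C

/-!
# VFS: Vaught's conjecture for invariant Borel classes with an `F_σ` closure condition, the
definitions used in the statement
-/

set_option autoImplicit false

namespace VFS

open Set

variable {L : FirstOrder.Language.{0, 0}} {M : Type}

/-- `K` is a Borel set: it is in the σ-algebra generated by the sets `{S : R(a) holds in S}`. -/
def Bor (K : Set (L.Structure ℕ)) : Prop :=
  @MeasurableSet (L.Structure ℕ) (MeasurableSpace.generateFrom {A : Set (L.Structure ℕ) |
    ∃ (n : ℕ) (R : L.Relations n) (a : Fin n → ℕ),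
      A = {S : L.Structure ℕ | S.RelMap R a}}) K

/-- `K` is closed under isomorphism. -/
def Inv (K : Set (L.Structure ℕ)) : Prop :=
  ∀ S S' : L.Structure ℕ, Nonempty (@FirstOrder.Language.Equiv L ℕ ℕ S S') → S ∈ K → S' ∈ K

/-- `S'` is the structure induced by `S` along `f`: `f : S' → S` preserves and reflects all
relations. -/
def Ind (S : L.Structure ℕ) (f : ℕ → ℕ) (S' : L.Structure ℕ) : Prop :=
  ∀ (n : ℕ) (R : L.Relations n) (v : Fin n → ℕ), S'.RelMap R v ↔ S.RelMap R (fun i => f (v i))

/-- the injections whose range is closed under the steps `a → b`, `R(a, b)` for some `R ∈ g` -/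
def InjC (S : L.Structure ℕ) (g : Set (L.Relations 2)) : Set (ℕ → ℕ) :=
  {f | Function.Injective f ∧ ∀ a ∈ range f, ∀ b, ∀ R ∈ g, S.RelMap R ![a, b] → b ∈ range f}

end VFS
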