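import Pool.Agent.VFS.Core

/-!
# VFS: Vaught's conjecture for invariant Borel classes with an `F_σ` closure condition, definitions
-/

set_option autoImplicit false

namespace VFS

open Set Pool.Agent.Helper5.DU Pool.Agent.Helper6.Str Pool.Agent.Helper79.VC

variable {L : FirstOrder.Language.{0, 0}} {M : Type}

/-- **The `F_σ` condition.** There are countably many closed sets `C i` of maps `ℕ → ℕ` such that
every permutation is in some `C i`, and the structure induced by `S` along an injection with closed
range which is in some `C i` is in `K`. (The set of the injections `f` with closed range along which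
`S` induces a member of `K` contains an `F_σ` set which contains all permutations.) -/
def FsC (K : Set (L.Structure ℕ)) (g : Set (L.Relations 2)) (S : L.Structure ℕ) : Prop :=
  ∃ C : ℕ → Set (ℕ → ℕ), (∀ i, IsClosed (C i)) ∧ (∀ f, Function.Bijective f → ∃ i, f ∈ C i) ∧
    ∀ i, ∀ f ∈ C i, f ∈ InjC S g → ∀ S' : L.Structure ℕ, Ind S f S' → S' ∈ K

/-! ## Borel codes and forcing -/

/-- codes of Borel sets of structures on `ℕ` -/
inductive Bc (L : FirstOrder.Language.{0, 0}) : Type
  | fls : Bc L
  | atm {n : ℕ} (R : L.Relations n) (a : Fin n → ℕ) : Bc L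
  | neg (b : Bc L) : Bc L
  | conj (b : ℕ → Bc L) : Bc L

/-- the Borel set given by a code -/
def Ev : Bc L → L.Structure ℕ → Prop
  | .fls, _ => False
  | .atm R a, S => S.RelMap R a
  | .neg b, S => ¬ Ev b S
  | .conj b, S => ∀ m, Ev (b m) S

/-- the tuple `t` extends the tuple `s` -/
def Ext {k l : ℕ} (s : Fin k → M) (t : Fin l → M) : Prop :=
  ∃ h : k ≤ l, ∀ i : Fin k, t (Fin.castLE h i) = s i

/-- The finite injection `s` forces that the structure induced by `S` along a generic permutation
which extends `s` is in the Borel set given by the code. -/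
def Fo (S : L.Structure M) : Bc L → ∀ {k : ℕ}, (Fin k → M) → Prop
  | .fls, _, _ => False
  | .atm R a, _, s => ∀ (l : ℕ) (t : Fin l → M), Function.Injective t → Ext s t →
      ∀ h : ∀ i, a i < l, S.RelMap R (fun i => t ⟨a i, h i⟩)
  | .neg b, _, s => ∀ (l : ℕ) (t : Fin l → M), Function.Injective t → Ext s t → ¬ Fo S b t
  | .conj b, _, s => ∀ m, Fo S (b m) s

/-- the restriction of `g` to `0, ..., k - 1` -/
def rs (g : ℕ → M) (k : ℕ) : Fin k → M := fun i => g i

end VFS
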