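import Pool.Agent.VFS.St
import Pool.Agent.HEC.ALLC

/-!
# VFS, module FIN: the dichotomy for invariant Borel classes with the `F_σ` condition
-/

set_option autoImplicit false

namespace VFS

open Set Pool.Agent.Helper5.DU Pool.Agent.Helper6.Str Pool.Agent.Helper79.VC
  Pool.Agent.Helper6.VC

theorem FIN_sub {L : FirstOrder.Language.{0, 0}} (h1 : St_LES) (h2 : St_BAI)
    (hc : Countable L.Symbols) (hrel : ∀ n, IsEmpty (L.Functions n))
    (g : Set (L.Relations 2)) (K : Set (L.Structure ℕ)) (hB : Bor K) (hI : Inv K)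
    (hf : ∀ S ∈ K, ∀ x : ℕ,
      {y | Relation.ReflTransGen (fun a b => ∃ R ∈ g, S.RelMap R ![a, b]) x y}.Finite)
    (hF : ∀ S ∈ K, FsC K g S) :
    (∃ e : ℕ → L.Structure ℕ, ∀ S ∈ K,
        ∃ n : ℕ, Nonempty (@FirstOrder.Language.Equiv L ℕ ℕ S (e n))) ∨
    (∃ f : (ℕ → Bool) → L.Structure ℕ, (∀ x : ℕ → Bool, f x ∈ K) ∧
        (∀ x y : ℕ → Bool,
            Nonempty (@FirstOrder.Language.Equiv L ℕ ℕ (f x) (f y)) → x = y) ∧
        (∀ (n : ℕ) (R : L.Relations n) (a : Fin n → ℕ),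
            IsClopen {x : ℕ → Bool | @FirstOrder.Language.Structure.RelMap L ℕ (f x) n R a})) := by
  obtain ⟨φ, hφ⟩ := h1 L K hB hI
  have hm : ∀ S : L.Structure ℕ, IsMod ∅ φ S ↔ S ∈ K := by
    intro S
    rw [hφ S]
    constructor
    · exact fun h => h.2
    · exact fun h => ⟨by let _ := S; exact ⟨fun ψ hψ => absurd hψ (notMem_empty ψ)⟩, h⟩
  have key := HEC.dichotomy_of_mnc HEC.all_MNC hc hrel g ∅ φ
    (fun S hS => hf S ((hm S).1 hS)) (fun S hS => by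
      obtain ⟨F, hFf, h3⟩ := h2 L K g S hI (hF S ((hm S).1 hS))
      exact ⟨F, hFf, fun f S' hfi hFr hcl hind =>
        (hm S').2 (h3 f ⟨hfi, hcl⟩ hFr S' hind)⟩)
  rcases key with ⟨e, he⟩ | ⟨f, h3, h4, h5⟩
  · exact Or.inl ⟨e, fun S hS => he S ((hm S).2 hS)⟩
  · exact Or.inr ⟨f, fun x => (hm _).1 (h3 x), h4, h5⟩

end VFS
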